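import Pool.Agent.R731.EO.Final

/-!
# Geodesics in the jet space `J^k`, `k ≥ 3`, need not be equi-optimal

The geodesic is the turn-back heteroclinic geodesic of the polynomial `F(x) = (3 x - x³) / 2`,
whose `x`-coordinate increases from `-1` to `1` (as `t → -∞`, `t → ∞`). Segments far out are
minimizing: inside the slab `|x| ≤ 2` they are calibrated by a function with horizontal gradient
`(√(1 - F(x)²), F(x))`, and curves leaving the slab are too long. The long symmetric segments
`γ([-T, T])` are not minimizing: their end points are joined by curves of length `O(√T)`.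
-/

set_option autoImplicit false

open scoped ENNReal

namespace Pool.Agent.Results.MP_8ed827_gt.NotEquiOptimal

open Pool.Agent.R731.EO

/-- For every `k ≥ 3` there is a geodesic `γ` of the jet space `J^k` (with its standard Carnot
group sub-Riemannian structure) which is not equi-optimal. More precisely, some shifted curve
`γ_s(t) = γ(t - s)` has a finite cut time, while the cut times of the shifted curves `γ_s`, `s ∈ ℝ`,
are unbounded. -/
theorem result (k : ℕ) (hk : 3 ≤ k) : ∃ γ : ℝ → Jet k, IsGeodesic γ ∧ ¬ EquiOptimal γ ∧
    (∃ s, cutTime (shift γ s) < ⊤) ∧ ∀ R : ℝ, ∃ s, ENNReal.ofReal R ≤ cutTime (shift γ s) :=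
  main k hk

end Pool.Agent.Results.MP_8ed827_gt.NotEquiOptimal
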